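import Pool.Agent.Hx18.PP.Fin
import Pool.Agent.Hx18.PP.Dmt

/-!
# The Tate conjecture for products of abelian varieties with one dominating or one exceptional slope

By the theorem of Honda and Tate an abelian variety over the field with `p ^ a` elements is given, up
to isogeny, by the characteristic polynomial of its Frobenius endomorphism (`IsFrobPoly`). The
variety is isogenous to a power of a simple one if and only if this is a power `R ^ e` of an
irreducible polynomial. Let `2 d` be the degree of `R`, and let `s j` and `1 - s j` be its slopes
(`j < d`). There is no restriction on `d`, and nothing is assumed about the Galois group of `R`. Put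
`w j = 1 - 2 s j`, so that `w j = 0` for the slope `1 / 2`. Suppose that there is an index `j0` such
that one of the following conditions holds (`IsDominant`).

* `w j = c M j` with a rational number `c ≠ 0` and integers `M j` such that `M j0` is not divisible by
  some prime number `ℓ` (which may be equal to `p`), but all the other `M j` are; that is,
  `|w j| < |w j0|` for all `j ≠ j0`, for the `ℓ`-adic absolute value.
* `∑ |w j| < |w j0|`, where the sum is over all `j ≠ j0`.
* `d` is even, and `w j = c M j` with a rational number `c ≠ 0` and integers `M j` such that `M j0` is
  even and all the other `M j` are odd.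

If `w j = 0` for all `j ≠ j0` and `w j0 ≠ 0` then these are the abelian varieties of K3 type (Zarhin);
if `d` is even, `s j0 = 1 / 2` and `s j = 0` for the other `j` then they are almost ordinary (Lenstra
and Zarhin).

We prove that all Tate classes, of all degrees and over all finite extensions, on all powers of
these abelian varieties `A i`, on all products of powers of finitely many of them that are pairwise
independent (some automorphism of the field of complex numbers fixes a given eigenvalue of the
Frobenius endomorphism of the first variety and takes a given eigenvalue of the second variety to its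
complex conjugate), and on the products of these with supersingular abelian varieties, are in the
algebra generated by the Tate classes of codimension one, that is (by Tate's theorem) by the classes
of divisors. So the Tate conjecture is true for all these abelian varieties.

The proof: a multiplicative relation between the Frobenius eigenvalues gives linear relations
between the numbers `± w j`, one for each element of the Galois group. If `w j0` dominates then we
choose an element of the Galois group that moves the eigenvalue with the largest exponent (for the
archimedean or the `ℓ`-adic absolute value) to one with the weight `± w j0`. In the third case we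
reduce modulo two: the relation says that the exponents of the pairs of eigenvalues are all equal
modulo two to their sum, and this sum is even because `d` is even.
-/

namespace Pool.Agent.Results.MP_ee618e_ag.DominantSlope

open Polynomial Pool.Agent.W518.TC Pool.Agent.W518.DN Pool.Agent.Hx18.PP

/-- One of the weights `1 - 2 s j` dominates the others, `l`-adically for some prime number `l` or as
a real number, or, if their number is even, all but one of them have the same `2`-adic absolute
value and the exceptional one is smaller. -/
def IsDominant {d : ℕ} (s : Fin d → ℚ) : Prop :=
  ∃ j0 : Fin d,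
    (∃ (l : ℕ) (c : ℚ) (M : Fin d → ℤ), l.Prime ∧ c ≠ 0 ∧ (∀ j, 1 - 2 * s j = c * M j) ∧
      ¬ (l : ℤ) ∣ M j0 ∧ ∀ j, j ≠ j0 → (l : ℤ) ∣ M j) ∨
    ∑ j ∈ Finset.univ.erase j0, |1 - 2 * s j| < |1 - 2 * s j0| ∨
    (Even d ∧ ∃ (c : ℚ) (M : Fin d → ℤ), c ≠ 0 ∧ (∀ j, 1 - 2 * s j = c * M j) ∧
      (2 : ℤ) ∣ M j0 ∧ ∀ j, j ≠ j0 → ¬ (2 : ℤ) ∣ M j)

theorem result {κ : Type} [Fintype κ] (p : ℕ) [Fact p.Prime] (a : ℕ) (ha : 0 < a)
    -- irreducible polynomials `R i` of degree `2 * d i`, with the slopes `s i j` and `1 - s i j`
    (R : κ → ℤ[X]) (e d : κ → ℕ) (s : ∀ i, Fin (d i) → ℚ) (hmon : ∀ i, (R i).Monic)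
    (hirr : ∀ i, Irreducible (R i)) (hsl : ∀ i, HasSlopes p a (s i) (R i))
    (hdom : ∀ i, IsDominant (s i))
    -- the powers `R i ^ e i` are Frobenius polynomials of abelian varieties `A i`
    (he : ∀ i, 0 < e i) (hfrob : ∀ i, IsFrobPoly p a (R i ^ e i))
    (hind : ∀ i j, i ≠ j → Independent (R i) (R j)) :
    TateGenerated p a fun i => R i ^ e i := by
  refine tateGenerated_pow p a R e (tateGenerated_of p a R (fun i => ⟨hmon i, ?_⟩) hirr ?_ hind)
  · intro z hz
    refine (hfrob i).weil z ?_
    rw [Polynomial.map_pow, IsRoot.def, eval_pow, IsRoot.def.1 hz]
    exact zero_pow (he i).ne'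
  · intro i L _ _ _ _ ψ hS
    obtain ⟨j0, h | h | h⟩ := hdom i
    · obtain ⟨l, c, M, hl, hc, hM, h0, h1⟩ := h
      exact noRel_single ψ hS ha (hsl i) hc hM hl j0 h0 h1
    · exact noRel_dom ψ hS ha (hsl i) j0 h
    · obtain ⟨hd, c, M, hc, hM, h0, h1⟩ := h
      exact noRel_butOne ψ hS ha (hsl i) hc hM hd j0 h0 h1

end Pool.Agent.Results.MP_ee618e_ag.DominantSlope
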