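import Mathlib
import Pool.Agent.Hx88.NZ.Main

/-!
# Almost all abelian varieties in every Newton stratum, times all abelian varieties of smaller dimension

Fix a prime `p`, a nonempty finite set `κ`, dimensions `g i` and, for each `i`, a symmetric Newton
polygon with slopes `s i j` and `1 - s i j` (`j < g i`), where `0 ≤ s i j ≤ 1 / 2`, whose break points
are integral and which is not the supersingular one.  By the theorem of Honda and Tate
`Stratum g s p a` is the set of families of isogeny classes of abelian varieties `A_i` of dimension
`g i` over the field with `p ^ a` elements having these Newton polygons.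

Let `r` be an integer smaller than all the `g i`, and let `E` be a number field.  We prove that, as
`a → ∞`, the number of elements of `Stratum g s p a` tends to infinity, and that the proportion of
those families for which the following (`TateTimes E p a r P`) holds tends to one:

for all exponents `n i`, and for **every** abelian variety `B` over any finite extension of the field
with `p ^ a` elements, all of whose simple factors occur in an abelian variety of dimension at most
`r` (for instance a product of powers of abelian varieties `B_j`, the sum of whose dimensions is at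
most `r`) or have Frobenius eigenvalues with a power in `E` (for instance supersingular ones), every
Tate class on `(∏ A_i ^ (n i)) × B`, of any degree and over any finite extension, is in the algebra
generated by divisor classes on `∏ A_i ^ (n i)` and Tate classes on `B`.

So the Tate conjecture (Q1) for `(∏ A_i ^ (n i)) × B` is equivalent to the Tate conjecture for `B`.

The starting file `NewtonStrata` is the case `r = 0`, `E = ℚ`, `B` supersingular.
-/

open Pool.Agent.W518.DN Pool.Agent.Hx88.NZ

namespace Pool.Agent.Results.MP_ee618e_ag.NewtonStrataTimesSmall

theorem result {κ : Type} [Fintype κ] [Nonempty κ] (p : ℕ) [Fact p.Prime]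
    -- dimensions and Newton polygons
    (g : κ → ℕ) (s : ∀ i, Fin (g i) → ℚ) (hs : ∀ i, IsNewton (s i))
    (hss : ∀ i, ∃ j, s i j < 1 / 2)
    -- the dimension of the second factor, and a number field
    (r : ℕ) (hr : ∀ i, r < g i) (E : IntermediateField ℚ ℂ) [FiniteDimensional ℚ E]
    -- a number of isogeny classes, a proportion of exceptions
    (N : ℕ) (ε : ℝ) (hε : 0 < ε) :
    ∃ a₀ : ℕ, ∀ a, a₀ ≤ a →
      (Stratum g s p a).Finite ∧ N ≤ (Stratum g s p a).ncard ∧
      ({P ∈ Stratum g s p a | ¬ TateTimes E p a r P}.ncard : ℝ) ≤
        ε * ((Stratum g s p a).ncard : ℝ) := by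
  classical
  have hg : ∀ i, 1 ≤ g i := fun i => by have := hr i; omega
  obtain ⟨a₀, h⟩ := Pool.Agent.Hx88.NZ.density g s p hg hs hss E N ε hε
  refine ⟨a₀, fun a ha => ?_⟩
  obtain ⟨h1, h2, h3⟩ := h a ha
  refine ⟨h1, h2, le_trans ?_ h3⟩
  have h4 : {P ∈ Stratum g s p a | ¬ TateTimes E p a r P} ⊆
      {P ∈ Stratum g s p a | ¬ Flips g E (p ^ a) P} := by
    rintro P ⟨hP, hP'⟩
    exact ⟨hP, fun hf => hP' (tateTimes_of_flips g E p a r hr P hf)⟩
  exact_mod_cast Set.ncard_le_ncard h4 (h1.subset fun P hP => hP.1)

end Pool.Agent.Results.MP_ee618e_ag.NewtonStrataTimesSmall
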