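import Pool.Agent.Hx18.PP.Fin
import Pool.Agent.Hx18.PB.Slo

/-!
# The Tate conjecture for abelian varieties whose Newton polygon has a block of prime length

By the theorem of Honda and Tate an abelian variety over the field with `p ^ a` elements is given, up
to isogeny, by the characteristic polynomial of its Frobenius endomorphism (`IsFrobPoly`). The
variety is isogenous to a power of a simple one if and only if this is a power `R ^ e` of an
irreducible polynomial. Let `2 d` be the degree of `R`, and let `s j` and `1 - s j` be its slopes
(`j < d`). There is no restriction on `d`, and nothing is assumed about the Galois group of `R` and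
the subfields of the field generated by its roots.

Suppose that there is a block of odd prime length (`HasPrimeBlock`): there are an odd prime number
`h < d` (it may be equal to `p`) and a rational number `v > 0` such that

* `|1 - 2 s j| = v` for exactly `h` indices `j`, that is, the slopes `t = (1 - v) / 2` and `1 - t`
  occur exactly `h` times, and the denominator of `e t` or the denominator of `a t` is divisible
  by `h`;
* each other value of `|1 - 2 s j|` is taken for less than `h` indices `j`;
* `h v` is not a signed sum of the other numbers `1 - 2 s j`;
* if `3 h ≤ d` then `h v` is even larger than the sum of the absolute values of the other numbers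
  `1 - 2 s j`.

The endomorphism algebra of the simple abelian variety is commutative if and only if `e = 1`. So for
these the condition is that `h` divides the denominator of the slope `t`: it is a condition on the
Newton polygon, for all finite fields. For instance the condition is satisfied by all simple abelian
varieties with commutative endomorphism algebra, over all finite fields, of dimension four with the
slopes `1/3`, `2/3` (three times) and `1/2` (twice), of dimension five with the slopes `1/3`, `2/3`
(three times) and `0`, `1` (twice), and of dimension `d` with the slopes `k/h`, `1 - k/h` (`h` times)
and `1/2` (`2 (d - h)` times) for all prime numbers `h` between `d / 2` and `d` and all `0 < k < h`.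

We prove that all Tate classes, of all degrees and over all finite extensions, on all powers of
these abelian varieties `A i`, on all products of powers of finitely many of them that are pairwise
independent (some automorphism of the field of complex numbers fixes a given eigenvalue of the
Frobenius endomorphism of the first variety and takes a given eigenvalue of the second variety to its
complex conjugate), and on the products of these with supersingular abelian varieties, are in the
algebra generated by the Tate classes of codimension one, that is (by Tate's theorem) by the classes
of divisors. So the Tate conjecture is true for all these abelian varieties.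

The proof uses elements of the decomposition group at `p`. The factor of `R` over `ℚ_p` with the
slope `t` is irreducible of degree `h`: an irreducible factor of degree `n` has a constant term of
valuation `n a t`, and `n e t` is an integer by the theorem of Honda and Tate. So the
decomposition group contains an element `δ` whose order is a power of `h` and which permutes the
eigenvalues of the slope `t` cyclically; it fixes all the eigenvalues whose slopes are not `t` and
`1 - t`, since there are too few of them for each slope. Let `m` be a multiplicative relation between
the eigenvalues, and `w` the function `1 - 2 s` on the eigenvalues. For all elements `g` and `g'` of the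
Galois group the correlation of `m (g x)` and `w (g' x)` on the block, a function on the group of order
`h`, is constant. Since the cyclotomic polynomial of prime order is irreducible, either all the
functions `m (g x)` or all the functions `w (g' x)` are constant on the block. The second is
impossible, because there are too few equal slopes outside the block. So `m` is constant on the
translates of the block. The classes of the eigenvalues for which the values of all conjugates
of `m` are equal contain translates of the block, so there are one or two pairs of complex conjugate
classes if `3 h > d`. This gives a vanishing signed sum of the numbers `1 - 2 s j`, with equal signs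
on the block, if `m` is not zero. If the block dominates then a translate of the block on which `|m|`
is maximal gives a contradiction.
-/

namespace Pool.Agent.Results.MP_ee618e_ag.PrimeBlock

open Polynomial Pool.Agent.W518.TC Pool.Agent.W518.DN Pool.Agent.Hx18.PP

/-- The slopes `s j` and `1 - s j` (`j < d`) of a polynomial `R` such that `R ^ e` is a Frobenius
polynomial over the field with `p ^ a` elements have a block of odd prime length `h < d`: exactly `h`
of the numbers `|1 - 2 s j|` are equal to `v`, the denominators of `e s j` or of `a s j` are divisible
by `h` for these `j`, all the other values of `|1 - 2 s j|` are taken less than `h` times, `h v` is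
not a signed sum of the other numbers `1 - 2 s j`, and, if `3 h ≤ d`, larger than the sum of their
absolute values. -/
def HasPrimeBlock (a e : ℕ) {d : ℕ} (s : Fin d → ℚ) : Prop :=
  ∃ (h : ℕ) (v : ℚ), h.Prime ∧ h ≠ 2 ∧ h < d ∧ 0 < v ∧
    (Finset.univ.filter fun j => |1 - 2 * s j| = v).card = h ∧
    (∀ j, |1 - 2 * s j| = v → h ∣ ((e : ℚ) * s j).den ∨ h ∣ ((a : ℚ) * s j).den) ∧
    (∀ i, |1 - 2 * s i| ≠ v →
      (Finset.univ.filter fun j => |1 - 2 * s j| = |1 - 2 * s i|).card < h) ∧
    (∀ ε : Fin d → ℚ, (∀ j, ε j = 1 ∨ ε j = -1) →
      ∑ j ∈ Finset.univ.filter (fun j => |1 - 2 * s j| ≠ v), ε j * (1 - 2 * s j) ≠ h * v) ∧
    (3 * h ≤ d →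
      ∑ j ∈ Finset.univ.filter (fun j => |1 - 2 * s j| ≠ v), |1 - 2 * s j| < h * v)

theorem result {κ : Type} [Fintype κ] (p : ℕ) [Fact p.Prime] (a : ℕ) (ha : 0 < a)
    -- irreducible polynomials `R i` of degree `2 * d i`, with the slopes `s i j` and `1 - s i j`
    (R : κ → ℤ[X]) (e d : κ → ℕ) (s : ∀ i, Fin (d i) → ℚ) (hmon : ∀ i, (R i).Monic)
    (hirr : ∀ i, Irreducible (R i)) (hsl : ∀ i, HasSlopes p a (s i) (R i))
    (hblock : ∀ i, HasPrimeBlock a (e i) (s i))
    -- the powers `R i ^ e i` are Frobenius polynomials of abelian varieties `A i`
    (he : ∀ i, 0 < e i) (hfrob : ∀ i, IsFrobPoly p a (R i ^ e i))
    (hind : ∀ i j, i ≠ j → Independent (R i) (R j)) :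
    TateGenerated p a fun i => R i ^ e i := by
  refine tateGenerated_pow p a R e (tateGenerated_of p a R (fun i => ⟨hmon i, ?_⟩) hirr ?_ hind)
  · intro z hz
    refine (hfrob i).weil z ?_
    rw [Polynomial.map_pow, IsRoot.def, eval_pow, IsRoot.def.1 hz]
    exact zero_pow (he i).ne'
  · intro i L _ _ _ _ ψ hS
    obtain ⟨h, v, hh, h2, hlt, hv, hcard, hden, hoth, hsum, hdom⟩ := hblock i
    exact Pool.Agent.Hx18.PB.noRel_block ψ hS (hirr i) ha (hsl i) hh h2 hv hcard hlt
      (fun x hx => Pool.Agent.Hx18.PB.deg_block ψ hS ha (hirr i) (hsl i) (hfrob i) hden hv x hx)
      hoth hsum hdom

end Pool.Agent.Results.MP_ee618e_ag.PrimeBlock
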