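import Pool.Agent.Hx18.PP.Fin

/-!
# The Tate conjecture for products of simple abelian varieties with prime power many conjugate pairs
of Frobenius eigenvalues

By the theorem of Honda and Tate an abelian variety over the field with `p ^ a` elements is given, up
to isogeny, by the characteristic polynomial of its Frobenius endomorphism (`IsFrobPoly`). The
variety is isogenous to a power of a simple one if and only if this is a power `R ^ e` of an
irreducible polynomial. Then the centre of the endomorphism algebra is the CM field `K = ℚ[X] / (R)`.

Suppose that the degree of `K` is `2 d`, where `d = ℓ ^ k` is a power of a prime number `ℓ` (which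
may be equal to `p`). Let `s j` and `1 - s j` be the slopes of `R`. We assume that there are a
rational number `c ≠ 0` and integers `M j` such that `1 - 2 s j = c M j` and such that no sum of
the `d` numbers `± M j` is divisible by `ℓ` (`PrimePowerType`). For `ℓ = 2` this means that the sum
of the `M j` is odd; so about half of all symmetric Newton polygons satisfy the assumption.

Examples are abelian varieties of dimension `ℓ ^ k` with `K` of degree `2 ℓ ^ k`, the slopes `0`,
`1 / 2` and `1`, and odd `p`-rank `f`, where `ℓ = 2` or `f < ℓ` (second part of the theorem).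
Before, this was known for `f = 1` (Zarhin: abelian varieties of K3 type), for `ℓ = 2` and
`f = ℓ ^ k - 1` (Lenstra and Zarhin: almost ordinary abelian varieties), and for `k = 1` (Tankeev).

Nothing is assumed about the Galois group of `K`.

We prove that all Tate classes, of all degrees and over all finite extensions, on all powers of
these abelian varieties `A i`, on all products of powers of finitely many of them that are pairwise
independent (some automorphism of the field of complex numbers fixes a given eigenvalue of the
Frobenius endomorphism of the first variety and takes a given eigenvalue of the second variety to its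
complex conjugate), and on the products of these with supersingular abelian varieties, are in the
algebra generated by the Tate classes of codimension one, that is (by Tate's theorem) by the classes
of divisors. So the Tate conjecture is true for all these abelian varieties.

The proof: a multiplicative relation between the Frobenius eigenvalues gives a relation between the
`p`-adic valuations of the conjugates. We reduce it modulo `ℓ` and use that a Sylow `ℓ`-subgroup of
the Galois group acts transitively on the `ℓ ^ k` pairs of conjugate eigenvalues.
-/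

namespace Pool.Agent.Results.MP_ee618e_ag.PrimePowerDimension

open Polynomial Pool.Agent.W518.TC Pool.Agent.W518.DN Pool.Agent.Hx18.PP

/-- The number `d` of the slopes `s j` is a power of a prime number `l`, and the numbers `1 - 2 s j`
are, up to a common rational factor, integers `M j` such that no sum of the numbers `± M j` is
divisible by `l`. -/
def PrimePowerType {d : ℕ} (s : Fin d → ℚ) : Prop :=
  ∃ (l k : ℕ) (c : ℚ) (M : Fin d → ℤ), l.Prime ∧ d = l ^ k ∧ c ≠ 0 ∧
    (∀ j, 1 - 2 * s j = c * M j) ∧
    ∀ ε : Fin d → ℤ, (∀ j, ε j = 1 ∨ ε j = -1) → ¬ (l : ℤ) ∣ ∑ j, ε j * M j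

/-- The slopes `0` and `1 / 2`. -/
theorem type_of_pRank {l k : ℕ} (hl : l.Prime) (s : Fin (l ^ k) → ℚ)
    (hs : ∀ j, s j = 0 ∨ s j = 1 / 2) (f : ℕ)
    (hf : (Finset.univ.filter fun j => s j = 0).card = f) (hodd : Odd f) (hlf : l = 2 ∨ f < l) :
    PrimePowerType s := by
  classical
  refine ⟨l, k, 1, fun j => if s j = 0 then 1 else 0, hl, rfl, one_ne_zero, ?_, ?_⟩
  · intro j
    rcases hs j with h | h
    · simp [h]
    · have h1 : s j ≠ 0 := by rw [h]; norm_num
      simp only [h1, if_false, Int.cast_zero, mul_zero]
      rw [h]; norm_num
  · intro ε hε hdvd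
    have h1 : ∑ j, ε j * (if s j = 0 then (1 : ℤ) else 0) =
        ∑ j ∈ Finset.univ.filter (fun j => s j = 0), ε j := by
      rw [Finset.sum_filter]
      refine Finset.sum_congr rfl fun j _ => ?_
      split_ifs <;> simp
    rw [h1] at hdvd
    have h2 : Odd (∑ j ∈ Finset.univ.filter (fun j => s j = 0), ε j) := by
      have h3 : (2 : ℤ) ∣ ∑ j ∈ Finset.univ.filter (fun j => s j = 0), (ε j - 1) := by
        refine Finset.dvd_sum fun j _ => ?_
        rcases hε j with h | h <;> rw [h] <;> decide
      rw [Finset.sum_sub_distrib, Finset.sum_const, hf, nsmul_one] at h3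
      obtain ⟨t, ht⟩ := h3
      obtain ⟨u, hu⟩ := hodd
      refine ⟨t + u, ?_⟩
      rw [hu] at ht
      push_cast at ht
      linarith
    rcases hlf with rfl | hlt
    · rw [← Int.not_even_iff_odd] at h2
      exact h2 (even_iff_two_dvd.2 (by exact_mod_cast hdvd))
    · have h3 : |∑ j ∈ Finset.univ.filter (fun j => s j = 0), ε j| ≤ f := by
        refine (Finset.abs_sum_le_sum_abs _ _).trans ?_
        rw [← hf, ← nsmul_one, ← Finset.sum_const]
        refine Finset.sum_le_sum fun j _ => ?_
        rcases hε j with h | h <;> rw [h] <;> simp
      have h4 := Int.eq_zero_of_abs_lt_dvd hdvd (lt_of_le_of_lt h3 (by exact_mod_cast hlt))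
      rw [h4] at h2
      exact absurd h2 (by decide)

theorem result :
    (∀ {κ : Type} [Fintype κ] (p : ℕ) [Fact p.Prime] (a : ℕ), 0 < a →
      -- irreducible polynomials `R i` of degree `2 * d i`, with the slopes `s i j` and `1 - s i j`
      ∀ (R : κ → ℤ[X]) (e d : κ → ℕ) (s : ∀ i, Fin (d i) → ℚ), (∀ i, (R i).Monic) →
      (∀ i, Irreducible (R i)) → (∀ i, HasSlopes p a (s i) (R i)) → (∀ i, PrimePowerType (s i)) →
      -- the powers `R i ^ e i` are Frobenius polynomials of abelian varieties `A i`
      (∀ i, 0 < e i) → (∀ i, IsFrobPoly p a (R i ^ e i)) →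
      (∀ i j, i ≠ j → Independent (R i) (R j)) → TateGenerated p a fun i => R i ^ e i) ∧
    -- examples with the slopes `0`, `1 / 2` and `1`
    ∀ (l k : ℕ), l.Prime → ∀ (s : Fin (l ^ k) → ℚ), (∀ j, s j = 0 ∨ s j = 1 / 2) →
      ∀ f, (Finset.univ.filter fun j => s j = 0).card = f → Odd f → (l = 2 ∨ f < l) →
        PrimePowerType s := by
  refine ⟨?_, fun l k hl s hs f hf hodd hlf => type_of_pRank hl s hs f hf hodd hlf⟩
  intro κ _ p _ a ha R e d s hRm hRi hsl hty he hfrob hind
  refine tateGenerated_pow p a R e (tateGenerated_of p a R (fun i => ⟨hRm i, ?_⟩) hRi ?_ hind)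
  · intro z hz
    refine (hfrob i).weil z ?_
    rw [Polynomial.map_pow, IsRoot.def, eval_pow, IsRoot.def.1 hz]
    exact zero_pow (he i).ne'
  · intro i L _ _ _ _ ψ hS
    obtain ⟨l, k, c, M, hl, hd, hc, hM, hsum⟩ := hty i
    exact noRel_primePower ψ hS ha (hsl i) hc hM hl hd hsum

end Pool.Agent.Results.MP_ee618e_ag.PrimePowerDimension
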